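import Mathlib

set_option autoImplicit false

namespace Pool.Agent.Results.MP_9322ca_co.OrderOfMagnitude

open Finset

/-- Two finite sets of reals are homothetic: some `x ↦ l * x + t` with `l > 0` maps the first
onto the second. -/
def Homothetic (A B : Finset ℝ) : Prop :=
  ∃ l t : ℝ, 0 < l ∧ (fun x => l * x + t) '' (A : Set ℝ) = (B : Set ℝ)

lemma homothetic_equivalence : Equivalence Homothetic where
  refl A := ⟨1, 0, one_pos, by simp⟩
  symm := by
    rintro A B ⟨l, t, hl, h⟩
    refine ⟨l⁻¹, -(l⁻¹ * t), inv_pos.2 hl, ?_⟩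
    rw [← h, Set.image_image]
    have : (fun x => l⁻¹ * (l * x + t) + -(l⁻¹ * t)) = id := by
      funext x
      have : l ≠ 0 := hl.ne'
      simp only [id]
      field_simp
      ring
    rw [this, Set.image_id]
  trans := by
    rintro A B C ⟨l, t, hl, h⟩ ⟨l', t', hl', h'⟩
    refine ⟨l' * l, l' * t + t', mul_pos hl' hl, ?_⟩
    rw [← h', ← h, Set.image_image]
    congr 1
    funext x
    ring

/-- The equivalence relation of homothety. -/
def homSetoid : Setoid (Finset ℝ) := ⟨Homothetic, homothetic_equivalence⟩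

/-- The number `c_k(X)` of homothety classes that meet the family of `k`-element subsets of `X`. -/
noncomputable def classCount (k : ℕ) (X : Finset ℝ) : ℕ :=
  Set.ncard {C : Quotient homSetoid | ∃ A ∈ X.powersetCard k, Quotient.mk homSetoid A = C}

/-- The minimum `f_k(n)` of `c_k(X)` over all `n`-element sets `X` of reals. -/
noncomputable def f (k n : ℕ) : ℕ :=
  sInf {c | ∃ X : Finset ℝ, X.card = n ∧ classCount k X = c}

/-! ### Counting rich affine maps -/

/-- The points of `X` sent into `X` by `x ↦ l * x + t`. -/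
noncomputable def Y (X : Finset ℝ) (h : ℝ × ℝ) : Finset ℝ :=
  X.filter (fun x => h.1 * x + h.2 ∈ X)

/-- rank of a point -/
noncomputable def rk (X : Finset ℝ) (x : ℝ) : ℕ := (X.filter (fun y => y < x)).card

lemma rk_mono (X : Finset ℝ) {x y : ℝ} (h : x ≤ y) : rk X x ≤ rk X y :=
  Finset.card_le_card (fun z hz => by
    simp only [Finset.mem_filter] at hz ⊢
    exact ⟨hz.1, hz.2.trans_le h⟩)

lemma rk_lt (X : Finset ℝ) {x y : ℝ} (hx : x ∈ X) (h : x < y) : rk X x < rk X y :=
  Finset.card_lt_card (by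
    refine Finset.ssubset_iff_subset_ne.2 ⟨fun z hz => ?_, fun he => ?_⟩
    · simp only [Finset.mem_filter] at hz ⊢
      exact ⟨hz.1, hz.2.trans h⟩
    · have : x ∈ X.filter (fun z => z < x) := by
        rw [he]
        simp [hx, h]
      simp at this)

lemma rk_lt_card (X : Finset ℝ) {x : ℝ} (hx : x ∈ X) : rk X x < X.card :=
  Finset.card_lt_card (by
    refine Finset.ssubset_iff_subset_ne.2 ⟨Finset.filter_subset _ _, fun he => ?_⟩
    have : x ∈ X.filter (fun z => z < x) := by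
      rw [he]
      exact hx
    simp at this)

/-- pairs of points in a common block -/
noncomputable def D (X : Finset ℝ) (q : ℕ) : Finset (ℝ × ℝ) :=
  (X ×ˢ X).filter (fun p => p.1 < p.2 ∧ rk X p.1 / q = rk X p.2 / q)

lemma card_D_le (X : Finset ℝ) {q : ℕ} (hq : 0 < q) : (D X q).card ≤ X.card * q := by
  have h : ∀ a ∈ X, ((D X q).filter (fun p => p.1 = a)).card ≤ q := by
    intro a ha
    have hmaps : ∀ p ∈ (D X q).filter (fun p => p.1 = a),
        rk X p.2 ∈ Finset.Ico (q * (rk X a / q)) (q * (rk X a / q) + q) := by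
      intro p hp
      simp only [D, Finset.mem_filter, Finset.mem_product] at hp
      obtain ⟨⟨_, _, h2⟩, h3⟩ := hp
      rw [h3] at h2
      rw [Finset.mem_Ico, h2]
      constructor
      · exact Nat.mul_div_le _ _
      · have := Nat.lt_mul_div_succ (rk X p.2) hq
        rw [mul_add, mul_one] at this
        exact this
    have hinj : Set.InjOn (fun p : ℝ × ℝ => rk X p.2)
        ((D X q).filter (fun p => p.1 = a) : Set (ℝ × ℝ)) := by
      intro p hp p' hp' hpp
      simp only [D, Finset.coe_filter, Finset.mem_filter, Finset.mem_product,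
        Set.mem_setOf_eq] at hp hp'
      have e1 : p.1 = p'.1 := hp.2.trans hp'.2.symm
      have e2 : p.2 = p'.2 := by
        rcases lt_trichotomy p.2 p'.2 with h | h | h
        · exact absurd hpp (rk_lt X hp.1.1.2 h).ne
        · exact h
        · exact absurd hpp (rk_lt X hp'.1.1.2 h).ne'
      exact Prod.ext e1 e2
    calc _ ≤ (Finset.Ico (q * (rk X a / q)) (q * (rk X a / q) + q)).card :=
          Finset.card_le_card_of_injOn _ hmaps hinj
      _ = q := by simp
  have h2 : (D X q).card = ∑ a ∈ X, ((D X q).filter (fun p => p.1 = a)).card := by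
    apply Finset.card_eq_sum_card_fiberwise
    intro p hp
    simp only [D, Finset.coe_filter, Set.mem_setOf_eq, Finset.mem_product] at hp
    exact hp.1.1
  rw [h2]
  calc _ ≤ ∑ _a ∈ X, q := Finset.sum_le_sum h
    _ = X.card * q := by simp

/-- pairs of `D` mapped to `D` by `h` -/
noncomputable def Dh (X : Finset ℝ) (q : ℕ) (h : ℝ × ℝ) : Finset (ℝ × ℝ) :=
  (D X q).filter (fun p => (h.1 * p.1 + h.2, h.1 * p.2 + h.2) ∈ D X q)

lemma card_Dh_ge (X : Finset ℝ) {q m : ℕ} (hm : ∀ x ∈ X, rk X x / q < m) {h : ℝ × ℝ}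
    (hh : 0 < h.1) : (Y X h).card ≤ (Dh X q h).card + (2 * m - 1) := by
  classical
  set s : ℝ → ℕ := fun y => rk X y / q + rk X (h.1 * y + h.2) / q with hs
  set Y' := (Y X h).filter (fun y => ∃ z ∈ Y X h, z < y ∧ s z = s y) with hY'
  have hmono : ∀ {x y : ℝ}, x ≤ y → rk X x / q ≤ rk X y / q := fun hxy =>
    Nat.div_le_div_right (rk_mono X hxy)
  have h1 : ((Y X h).filter (fun y => ¬ ∃ z ∈ Y X h, z < y ∧ s z = s y)).card ≤ 2 * m - 1 := by
    have hmaps : ∀ y ∈ (Y X h).filter (fun y => ¬ ∃ z ∈ Y X h, z < y ∧ s z = s y),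
        s y ∈ Finset.range (2 * m - 1) := by
      intro y hy
      simp only [Y, Finset.mem_filter] at hy
      have a := hm y hy.1.1
      have b := hm _ hy.1.2
      rw [Finset.mem_range]
      simp only [hs]
      omega
    have hinj : Set.InjOn s
        ((Y X h).filter (fun y => ¬ ∃ z ∈ Y X h, z < y ∧ s z = s y) : Set ℝ) := by
      intro y hy y' hy' hyy
      simp only [Finset.coe_filter, Set.mem_setOf_eq] at hy hy'
      rcases lt_trichotomy y y' with hlt | hlt | hlt
      · exact absurd ⟨y, hy.1, hlt, hyy⟩ hy'.2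
      · exact hlt
      · exact absurd ⟨y', hy'.1, hlt, hyy.symm⟩ hy.2
    have := Finset.card_le_card_of_injOn s hmaps hinj
    simpa using this
  have h2 : Y'.card ≤ (Dh X q h).card := by
    have hch : ∀ y : ℝ, ∃ z : ℝ, y ∈ Y' → (z ∈ Y X h ∧ z < y ∧ s z = s y) := by
      intro y
      by_cases hy : y ∈ Y'
      · obtain ⟨z, hz⟩ := (Finset.mem_filter.1 hy).2
        exact ⟨z, fun _ => hz⟩
      · exact ⟨0, fun h => absurd h hy⟩
    choose z hz using hch
    apply Finset.card_le_card_of_injOn (fun y => (z y, y))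
    · intro y hy
      obtain ⟨hz1, hz2, hz3⟩ := hz y hy
      have hy1 : y ∈ Y X h := (Finset.mem_filter.1 hy).1
      simp only [Y, Finset.mem_filter] at hz1 hy1
      have hlt : h.1 * z y + h.2 < h.1 * y + h.2 := by
        have := mul_lt_mul_of_pos_left hz2 hh
        linarith
      have a := hmono hz2.le
      have b := hmono hlt.le
      simp only [hs] at hz3
      simp only [Dh, D, Finset.coe_filter, Finset.mem_filter, Finset.mem_product,
        Set.mem_setOf_eq]
      refine ⟨⟨⟨hz1.1, hy1.1⟩, hz2, by omega⟩, ⟨hz1.2, hy1.2⟩, hlt, by omega⟩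
    · intro y _ y' _ hyy
      exact (Prod.ext_iff.1 hyy).2
  have h3 : (Y X h).card = Y'.card +
      ((Y X h).filter (fun y => ¬ ∃ z ∈ Y X h, z < y ∧ s z = s y)).card := by
    rw [hY', Finset.card_filter_add_card_filter_not]
  omega

/-- the affine map sending `p` to `p'` -/
noncomputable def aff (p p' : ℝ × ℝ) : ℝ × ℝ :=
  ((p'.2 - p'.1) / (p.2 - p.1), p'.1 - p.1 * ((p'.2 - p'.1) / (p.2 - p.1)))

/-- increasing pairs -/
noncomputable def Inc (X : Finset ℝ) : Finset (ℝ × ℝ) := (X ×ˢ X).filter (fun p => p.1 < p.2)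

/-- the increasing affine maps sending two points of `X` into `X` -/
noncomputable def H (X : Finset ℝ) : Finset (ℝ × ℝ) :=
  (Inc X ×ˢ Inc X).image (fun q => aff q.1 q.2)

lemma aff_eq {h : ℝ × ℝ} {a a' : ℝ} (haa : a < a') :
    aff (a, a') (h.1 * a + h.2, h.1 * a' + h.2) = h := by
  have : a' - a ≠ 0 := (sub_pos.2 haa).ne'
  apply Prod.ext
  · simp only [aff]
    field_simp
    ring
  · simp only [aff]
    field_simp
    ring

lemma H_pos {X : Finset ℝ} {h : ℝ × ℝ} (hh : h ∈ H X) : 0 < h.1 := by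
  simp only [H, Inc, Finset.mem_image, Finset.mem_product, Finset.mem_filter] at hh
  obtain ⟨⟨p, p'⟩, ⟨⟨_, hp⟩, ⟨_, hp'⟩⟩, rfl⟩ := hh
  exact div_pos (sub_pos.2 hp') (sub_pos.2 hp)

lemma mem_H {X : Finset ℝ} {h : ℝ × ℝ} (hh : 0 < h.1) (h2 : 2 ≤ (Y X h).card) : h ∈ H X := by
  obtain ⟨x, hx, y, hy, hxy⟩ := Finset.one_lt_card.1 h2
  have key : ∀ a a' : ℝ, a ∈ Y X h → a' ∈ Y X h → a < a' → h ∈ H X := by
    intro a a' ha ha' haa
    simp only [Y, Finset.mem_filter] at ha ha'
    rw [H, Finset.mem_image]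
    refine ⟨((a, a'), (h.1 * a + h.2, h.1 * a' + h.2)), ?_, aff_eq haa⟩
    simp only [Inc, Finset.mem_product, Finset.mem_filter]
    refine ⟨⟨⟨ha.1, ha'.1⟩, haa⟩, ⟨ha.2, ha'.2⟩, ?_⟩
    have := mul_lt_mul_of_pos_left haa hh
    linarith
  rcases lt_or_gt_of_ne hxy with h1 | h1
  · exact key x y hx hy h1
  · exact key y x hy hx h1

lemma card_rich_mul_le (X : Finset ℝ) {q m j : ℕ} (hq : 0 < q) (hm : ∀ x ∈ X, rk X x / q < m) :
    ((H X).filter (fun h => j ≤ (Y X h).card)).card * (j - (2 * m - 1)) ≤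
      (X.card * q) ^ 2 := by
  classical
  set G := (H X).filter (fun h => j ≤ (Y X h).card) with hG
  have h1 : G.card * (j - (2 * m - 1)) ≤ ∑ h ∈ G, (Dh X q h).card := by
    rw [← smul_eq_mul]
    apply Finset.card_nsmul_le_sum
    intro h hh
    have h2 := Finset.mem_filter.1 hh
    have := card_Dh_ge X hm (H_pos h2.1)
    have := h2.2
    omega
  have h2 : ∑ h ∈ G, (Dh X q h).card ≤ ((D X q) ×ˢ (D X q)).card := by
    rw [← Finset.card_sigma]
    apply Finset.card_le_card_of_injOn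
      (fun x : (_ : ℝ × ℝ) × (ℝ × ℝ) =>
        (x.2, (x.1.1 * x.2.1 + x.1.2, x.1.1 * x.2.2 + x.1.2)))
    · rintro ⟨h, p⟩ hx
      simp only [Finset.coe_sigma, Set.mem_sigma_iff, Finset.mem_coe, Dh, Finset.mem_filter] at hx
      simp only [Finset.coe_product, Set.mem_prod, Finset.mem_coe]
      exact ⟨hx.2.1, hx.2.2⟩
    · rintro ⟨h, p⟩ hx ⟨h', p'⟩ hx' he
      simp only [Finset.coe_sigma, Set.mem_sigma_iff, Finset.mem_coe, Dh, Finset.mem_filter]
        at hx hx'
      simp only [Prod.mk.injEq] at he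
      obtain ⟨rfl, he⟩ := he
      have hlt : p.1 < p.2 := by
        have := hx.2.1
        simp only [D, Finset.mem_filter] at this
        exact this.2.1
      have e1 := aff_eq (h := h) hlt
      have e2 := aff_eq (h := h') hlt
      rw [he.1, he.2] at e1
      have : h = h' := e1.symm.trans e2
      subst this
      rfl
  calc _ ≤ _ := h1
    _ ≤ _ := h2
    _ = (D X q).card ^ 2 := by rw [Finset.card_product, sq]
    _ ≤ _ := Nat.pow_le_pow_left (card_D_le X hq) 2

/-- The Szemeredi-Trotter bound for the increasing affine maps that are `j`-rich on `X × X`. -/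
lemma card_rich_le (X : Finset ℝ) {j : ℕ} (hj : 2 ≤ j) :
    (((H X).filter (fun h => j ≤ (Y X h).card)).card : ℝ) * (j : ℝ) ^ 3 ≤
      324 * (X.card : ℝ) ^ 4 := by
  set n := X.card with hn
  set G := (H X).filter (fun h => j ≤ (Y X h).card) with hG
  by_cases hjn : n < j
  · have : G = ∅ := by
      rw [hG, Finset.filter_eq_empty_iff]
      intro h _ hle
      have : (Y X h).card ≤ n := Finset.card_le_card (Finset.filter_subset _ _)
      omega
    rw [this]
    simp
  · push Not at hjn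
    have hj0 : (0 : ℝ) < j := by
      have : 0 < j := by omega
      exact_mod_cast this
    have hn0 : 0 < n := by omega
    have hn0' : (0 : ℝ) < n := by exact_mod_cast hn0
    obtain ⟨q, hq1, hq2⟩ : ∃ q : ℕ, 8 * (n : ℝ) / j ≤ q ∧ (q : ℝ) ≤ 8 * (n : ℝ) / j + 1 := by
      refine ⟨⌈8 * (n : ℝ) / j⌉₊, Nat.le_ceil _, (Nat.ceil_lt_add_one (by positivity)).le⟩
    have hqpos : (0 : ℝ) < q := lt_of_lt_of_le (by positivity) hq1
    have hq0 : 0 < q := by exact_mod_cast hqpos
    set m := (n - 1) / q + 1 with hm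
    have hm' : ∀ x ∈ X, rk X x / q < m := by
      intro x hx
      have h1 := rk_lt_card X hx
      have h2 : rk X x / q ≤ (n - 1) / q := Nat.div_le_div_right (by omega)
      omega
    have key := card_rich_mul_le X (j := j) hq0 hm'
    have hmr : (m : ℝ) ≤ n / q + 1 := by
      rw [hm]
      push_cast
      have h1 : (((n - 1) / q : ℕ) : ℝ) ≤ ((n - 1 : ℕ) : ℝ) / q := Nat.cast_div_le
      have h2 : ((n - 1 : ℕ) : ℝ) / q ≤ n / q := by
        apply div_le_div_of_nonneg_right _ hqpos.le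
        have : n - 1 ≤ n := by omega
        exact_mod_cast this
      linarith
    have hnq : (n : ℝ) / q ≤ j / 8 := by
      rw [div_le_div_iff₀ hqpos (by norm_num)]
      have := (div_le_iff₀ hj0).1 hq1
      linarith
    have hj2 : (2 : ℝ) ≤ j := by exact_mod_cast hj
    have hlow : (j : ℝ) / 4 ≤ ((j - (2 * m - 1) : ℕ) : ℝ) := by
      have h1 : (j : ℝ) - (2 * m - 1) ≤ ((j - (2 * m - 1) : ℕ) : ℝ) := by
        have h2 : j ≤ (j - (2 * m - 1)) + (2 * m - 1) := le_tsub_add
        have hm1 : 1 ≤ 2 * m := by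
          have : 1 ≤ m := Nat.le_add_left 1 _
          linarith
        have h3 : ((2 * m - 1 : ℕ) : ℝ) = 2 * m - 1 := by
          rw [Nat.cast_sub hm1]
          push_cast
          ring
        have h4 : (j : ℝ) ≤ ((j - (2 * m - 1) : ℕ) : ℝ) + ((2 * m - 1 : ℕ) : ℝ) := by
          exact_mod_cast h2
        rw [h3] at h4
        linarith
      nlinarith
    have key' : (G.card : ℝ) * ((j - (2 * m - 1) : ℕ) : ℝ) ≤ ((n : ℝ) * q) ^ 2 := by
      exact_mod_cast key
    have hjn' : (j : ℝ) ≤ n := by exact_mod_cast hjn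
    have hq3 : (q : ℝ) * j ≤ 9 * n := by
      have h1 : (q : ℝ) * j ≤ (8 * (n : ℝ) / j + 1) * j :=
        mul_le_mul_of_nonneg_right hq2 hj0.le
      have h2 : (8 * (n : ℝ) / j + 1) * j = 8 * n + j := by field_simp
      linarith
    have hG0 : (0 : ℝ) ≤ G.card := Nat.cast_nonneg _
    have h5 : (G.card : ℝ) * (j / 4) ≤ ((n : ℝ) * q) ^ 2 :=
      (mul_le_mul_of_nonneg_left hlow hG0).trans key'
    have h6 : ((q : ℝ) * j) ^ 2 ≤ (9 * n) ^ 2 :=
      pow_le_pow_left₀ (by positivity) hq3 2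
    calc (G.card : ℝ) * (j : ℝ) ^ 3 = 4 * ((G.card : ℝ) * (j / 4)) * (j : ℝ) ^ 2 := by ring
      _ ≤ 4 * (((n : ℝ) * q) ^ 2) * (j : ℝ) ^ 2 := by gcongr
      _ = 4 * (n : ℝ) ^ 2 * ((q : ℝ) * j) ^ 2 := by ring
      _ ≤ 4 * (n : ℝ) ^ 2 * (9 * n) ^ 2 := by gcongr
      _ = 324 * (n : ℝ) ^ 4 := by ring

lemma two_le_of_mem_H {X : Finset ℝ} {h : ℝ × ℝ} (hh : h ∈ H X) : 2 ≤ (Y X h).card := by
  simp only [H, Inc, Finset.mem_image, Finset.mem_product, Finset.mem_filter] at hh
  obtain ⟨⟨p, p'⟩, ⟨⟨hpX, hp⟩, ⟨hpX', hp'⟩⟩, rfl⟩ := hh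
  have h0 : p.2 - p.1 ≠ 0 := (sub_pos.2 hp).ne'
  have e1 : (aff p p').1 * p.1 + (aff p p').2 = p'.1 := by
    simp only [aff]
    ring
  have e2 : (aff p p').1 * p.2 + (aff p p').2 = p'.2 := by
    simp only [aff]
    field_simp
    ring
  apply Finset.one_lt_card.2
  refine ⟨p.1, ?_, p.2, ?_, hp.ne⟩
  · simp only [Y, Finset.mem_filter]
    rw [e1]
    exact ⟨hpX.1, hpX'.1⟩
  · simp only [Y, Finset.mem_filter]
    rw [e2]
    exact ⟨hpX.2, hpX'.2⟩

lemma pow_le_sum (k r : ℕ) (hk : 1 ≤ k) :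
    (r : ℝ) ^ k ≤ ∑ j ∈ Finset.Icc 1 r, (k : ℝ) * (j : ℝ) ^ (k - 1) := by
  induction r with
  | zero => simp [show k ≠ 0 by omega]
  | succ r ih =>
    rw [Finset.sum_Icc_succ_top (by omega)]
    have hb : (1 : ℝ) + k * (-(1 / ((r : ℝ) + 1))) ≤ (1 + -(1 / ((r : ℝ) + 1))) ^ k := by
      apply one_add_mul_le_pow
      have : 1 / ((r : ℝ) + 1) ≤ 1 := by
        rw [div_le_one (by positivity)]
        linarith [Nat.cast_nonneg (α := ℝ) r]
      linarith
    have hr : (0 : ℝ) < (r : ℝ) + 1 := by positivity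
    have e1 : (1 + -(1 / ((r : ℝ) + 1))) = r / ((r : ℝ) + 1) := by
      field_simp
      ring
    rw [e1, div_pow] at hb
    have hk' : ((r : ℝ) + 1) ^ k = ((r : ℝ) + 1) ^ (k - 1) * ((r : ℝ) + 1) := by
      rw [← pow_succ]
      congr 1
      omega
    have h3 : ((r : ℝ) + 1) ^ k - k * ((r : ℝ) + 1) ^ (k - 1) ≤ (r : ℝ) ^ k := by
      have h4 := mul_le_mul_of_nonneg_right hb (pow_pos hr k).le
      rw [div_mul_cancel₀ _ (pow_pos hr k).ne'] at h4
      have h5 : (1 + (k : ℝ) * -(1 / ((r : ℝ) + 1))) * ((r : ℝ) + 1) ^ k =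
          ((r : ℝ) + 1) ^ k - k * ((r : ℝ) + 1) ^ (k - 1) := by
        rw [hk']
        field_simp
        ring
      linarith
    push_cast
    push_cast at ih
    linarith

lemma sum_rich_le (X : Finset ℝ) {k : ℕ} (hk : 4 ≤ k) :
    ∑ h ∈ H X, ((Y X h).card : ℝ) ^ k ≤ 324 * k * (X.card : ℝ) ^ (k + 1) := by
  classical
  set n := X.card with hn
  have hY : ∀ h, (Y X h).card ≤ n := fun h => Finset.card_le_card (Finset.filter_subset _ _)
  have h1 : ∀ h ∈ H X, ((Y X h).card : ℝ) ^ k ≤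
      ∑ j ∈ Finset.Icc 1 n, if j ≤ (Y X h).card then (k : ℝ) * (j : ℝ) ^ (k - 1) else 0 := by
    intro h _
    refine (pow_le_sum k _ (by omega)).trans (le_of_eq ?_)
    rw [← Finset.sum_filter]
    apply Finset.sum_congr _ (fun _ _ => rfl)
    ext j
    simp only [Finset.mem_Icc, Finset.mem_filter]
    have := hY h
    omega
  have h2 : ∀ j ∈ Finset.Icc 1 n,
      (((H X).filter (fun h => j ≤ (Y X h).card)).card : ℝ) * (j : ℝ) ^ 3 ≤ 324 * (n : ℝ) ^ 4 := by
    intro j hj
    rw [Finset.mem_Icc] at hj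
    rcases Nat.lt_or_ge j 2 with h | h
    · have hj1 : j = 1 := by omega
      subst hj1
      have e : (H X).filter (fun h => 1 ≤ (Y X h).card) = (H X).filter (fun h => 2 ≤ (Y X h).card) := by
        apply Finset.filter_congr
        intro h hh
        have := two_le_of_mem_H hh
        constructor <;> intro _ <;> omega
      rw [e]
      have := card_rich_le X (j := 2) le_rfl
      have h0 : (0 : ℝ) ≤ (((H X).filter (fun h => 2 ≤ (Y X h).card)).card : ℝ) := Nat.cast_nonneg _
      push_cast at this ⊢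
      nlinarith
    · exact card_rich_le X h
  calc ∑ h ∈ H X, ((Y X h).card : ℝ) ^ k
      ≤ ∑ h ∈ H X, ∑ j ∈ Finset.Icc 1 n,
          (if j ≤ (Y X h).card then (k : ℝ) * (j : ℝ) ^ (k - 1) else 0) := Finset.sum_le_sum h1
    _ = ∑ j ∈ Finset.Icc 1 n, ∑ h ∈ H X,
          (if j ≤ (Y X h).card then (k : ℝ) * (j : ℝ) ^ (k - 1) else 0) := Finset.sum_comm
    _ = ∑ j ∈ Finset.Icc 1 n,
          (((H X).filter (fun h => j ≤ (Y X h).card)).card : ℝ) * ((k : ℝ) * (j : ℝ) ^ (k - 1)) := by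
        apply Finset.sum_congr rfl
        intro j _
        rw [← Finset.sum_filter, Finset.sum_const, nsmul_eq_mul]
    _ ≤ ∑ _j ∈ Finset.Icc 1 n, 324 * (k : ℝ) * (n : ℝ) ^ k := by
        apply Finset.sum_le_sum
        intro j hj
        have hj' := Finset.mem_Icc.1 hj
        have e : (k : ℝ) * (j : ℝ) ^ (k - 1) = (j : ℝ) ^ 3 * (k * (j : ℝ) ^ (k - 4)) := by
          have : k - 1 = 3 + (k - 4) := by omega
          rw [this, pow_add]
          ring
        rw [e, ← mul_assoc]
        have h3 : (j : ℝ) ^ (k - 4) ≤ (n : ℝ) ^ (k - 4) := by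
          apply pow_le_pow_left₀ (Nat.cast_nonneg _)
          exact_mod_cast hj'.2
        calc _ ≤ 324 * (n : ℝ) ^ 4 * (k * (j : ℝ) ^ (k - 4)) := by
              apply mul_le_mul_of_nonneg_right (h2 j hj) (by positivity)
          _ ≤ 324 * (n : ℝ) ^ 4 * (k * (n : ℝ) ^ (k - 4)) := by gcongr
          _ = 324 * (k : ℝ) * (n : ℝ) ^ k := by
              have : (n : ℝ) ^ k = (n : ℝ) ^ 4 * (n : ℝ) ^ (k - 4) := by
                rw [← pow_add]
                congr 1
                omega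
              rw [this]
              ring
    _ = 324 * k * (n : ℝ) ^ (k + 1) := by
        rw [Finset.sum_const, Nat.card_Icc, nsmul_eq_mul]
        simp only [Nat.add_sub_cancel]
        ring

/-- the number of homothetic pairs of `k`-subsets -/
lemma card_pairs_le (X : Finset ℝ) {k : ℕ} (hk : 2 ≤ k)
    [DecidablePred fun p : Finset ℝ × Finset ℝ => Homothetic p.1 p.2] :
    (((X.powersetCard k ×ˢ X.powersetCard k).filter
      (fun p => Homothetic p.1 p.2)).card : ℝ) ≤ ∑ h ∈ H X, ((Y X h).card : ℝ) ^ k := by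
  classical
  have hch : ∀ p : Finset ℝ × Finset ℝ, ∃ h : ℝ × ℝ,
      p ∈ (X.powersetCard k ×ˢ X.powersetCard k).filter (fun p => Homothetic p.1 p.2) →
      (0 < h.1 ∧ (fun x => h.1 * x + h.2) '' (p.1 : Set ℝ) = (p.2 : Set ℝ)) := by
    intro p
    by_cases hp : p ∈ (X.powersetCard k ×ˢ X.powersetCard k).filter
        (fun p => Homothetic p.1 p.2)
    · obtain ⟨l, t, hl, h⟩ := (Finset.mem_filter.1 hp).2
      exact ⟨(l, t), fun _ => ⟨hl, h⟩⟩
    · exact ⟨0, fun h => absurd h hp⟩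
  choose g hg using hch
  have h1 : ((X.powersetCard k ×ˢ X.powersetCard k).filter
      (fun p => Homothetic p.1 p.2)).card ≤
      ((H X).sigma (fun h => (Y X h).powersetCard k)).card := by
    apply Finset.card_le_card_of_injOn
      (fun p => (⟨g p, p.1⟩ : (_ : ℝ × ℝ) × Finset ℝ))
    · intro p hp
      have hp' := hp
      obtain ⟨hpos, him⟩ := hg p hp
      simp only [Finset.coe_filter, Finset.mem_product, Finset.mem_powersetCard,
        Set.mem_setOf_eq] at hp'
      obtain ⟨⟨⟨hA, hAk⟩, ⟨hB, hBk⟩⟩, _⟩ := hp'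
      have hsub : p.1 ⊆ Y X (g p) := by
        intro x hx
        simp only [Y, Finset.mem_filter]
        refine ⟨hA hx, hB ?_⟩
        have : (fun x => (g p).1 * x + (g p).2) x ∈ (p.2 : Set ℝ) := by
          rw [← him]
          exact ⟨x, hx, rfl⟩
        exact this
      simp only [Finset.coe_sigma, Set.mem_sigma_iff, Finset.mem_coe, Finset.mem_powersetCard]
      refine ⟨mem_H hpos ?_, hsub, hAk⟩
      calc 2 ≤ k := hk
        _ = p.1.card := hAk.symm
        _ ≤ _ := Finset.card_le_card hsub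
    · intro p hp p' hp' he
      obtain ⟨hpos, him⟩ := hg p hp
      obtain ⟨hpos', him'⟩ := hg p' hp'
      simp only [Sigma.mk.injEq, heq_eq_eq] at he
      obtain ⟨he1, he2⟩ := he
      apply Prod.ext he2
      apply Finset.coe_injective
      rw [← him, ← him', he1, he2]
  have h2 : ((H X).sigma (fun h => (Y X h).powersetCard k)).card =
      ∑ h ∈ H X, ((Y X h).card).choose k := by
    rw [Finset.card_sigma]
    exact Finset.sum_congr rfl (fun h _ => Finset.card_powersetCard _ _)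
  rw [h2] at h1
  calc _ ≤ ((∑ h ∈ H X, ((Y X h).card).choose k : ℕ) : ℝ) := by exact_mod_cast h1
    _ = ∑ h ∈ H X, (((Y X h).card).choose k : ℝ) := by push_cast; rfl
    _ ≤ _ := Finset.sum_le_sum (fun h _ => by
        exact_mod_cast Nat.choose_le_pow (Y X h).card k)

/-- Cauchy-Schwarz. -/
lemma card_sq_le (X : Finset ℝ) (k : ℕ)
    [DecidablePred fun p : Finset ℝ × Finset ℝ => Homothetic p.1 p.2] :
    ((X.powersetCard k).card : ℝ) ^ 2 ≤ classCount k X *
      (((X.powersetCard k ×ˢ X.powersetCard k).filter (fun p => Homothetic p.1 p.2)).card : ℝ) := by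
  classical
  set P := X.powersetCard k with hP
  set φ : Finset ℝ → Quotient homSetoid := Quotient.mk homSetoid with hφ
  have hcc : classCount k X = (P.image φ).card := by
    rw [classCount, ← Set.ncard_coe_finset]
    congr 1
    ext C
    simp [hP, hφ]
  have h1 : P.card = ∑ c ∈ P.image φ, (P.filter (fun A => φ A = c)).card :=
    Finset.card_eq_sum_card_image φ P
  have h2 : ((P ×ˢ P).filter (fun p => Homothetic p.1 p.2)).card =
      ∑ c ∈ P.image φ, (P.filter (fun A => φ A = c)).card ^ 2 := by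
    have hmap : ∀ p ∈ (P ×ˢ P).filter (fun p => Homothetic p.1 p.2), φ p.1 ∈ P.image φ := by
      intro p hp
      simp only [Finset.mem_filter, Finset.mem_product] at hp
      exact Finset.mem_image_of_mem φ hp.1.1
    rw [Finset.card_eq_sum_card_fiberwise hmap]
    apply Finset.sum_congr rfl
    intro c _
    rw [sq, ← Finset.card_product]
    congr 1
    ext p
    simp only [Finset.mem_filter, Finset.mem_product]
    constructor
    · rintro ⟨⟨⟨h3, h4⟩, h5⟩, h6⟩
      refine ⟨⟨h3, h6⟩, h4, ?_⟩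
      rw [← h6]
      exact (Quotient.sound (s := homSetoid) h5).symm
    · rintro ⟨⟨h3, h4⟩, h5, h6⟩
      refine ⟨⟨⟨h3, h5⟩, ?_⟩, h4⟩
      exact Quotient.exact (s := homSetoid) (h4.trans h6.symm)
  rw [hcc, h2, h1]
  push_cast
  exact sq_sum_le_card_mul_sum_sq

lemma choose_ge {n k : ℕ} (hk : 1 ≤ k) (hn : k ≤ n) :
    (n : ℝ) ^ k / (k : ℝ) ^ (2 * k) ≤ (n.choose k : ℝ) := by
  have hk0 : (0 : ℝ) < k := by exact_mod_cast hk
  have h1 := Nat.pow_le_choose (α := ℝ) k n
  have h2 : (k.factorial : ℝ) ≤ (k : ℝ) ^ k := by exact_mod_cast Nat.factorial_le_pow k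
  have h3 : (n : ℝ) / k ≤ ((n + 1 - k : ℕ) : ℝ) := by
    rw [Nat.cast_sub (by omega), div_le_iff₀ hk0]
    push_cast
    have h4 : (1 : ℝ) ≤ k := by exact_mod_cast hk
    have h5 : (k : ℝ) ≤ n := by exact_mod_cast hn
    nlinarith
  have h4 : ((n : ℝ) / k) ^ k ≤ ((n + 1 - k : ℕ) : ℝ) ^ k :=
    pow_le_pow_left₀ (by positivity) h3 k
  have hf : (0 : ℝ) < k.factorial := by exact_mod_cast Nat.factorial_pos k
  calc (n : ℝ) ^ k / (k : ℝ) ^ (2 * k) = ((n : ℝ) / k) ^ k / (k : ℝ) ^ k := by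
        rw [div_pow, div_div, ← pow_add]
        congr 2
        omega
    _ ≤ ((n + 1 - k : ℕ) : ℝ) ^ k / (k : ℝ) ^ k := by gcongr
    _ ≤ ((n + 1 - k : ℕ) : ℝ) ^ k / k.factorial := by
        apply div_le_div_of_nonneg_left (by positivity) hf h2
    _ ≤ _ := h1

/-- The lower bound for every `n`-element set. -/
lemma lower_bound (X : Finset ℝ) {k : ℕ} (hk : 4 ≤ k) (hn : k ≤ X.card) :
    (X.card : ℝ) ^ (k - 1) ≤ 324 * (k : ℝ) ^ (4 * k + 1) * classCount k X := by
  classical
  set n := X.card with hnn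
  have hk0 : (0 : ℝ) < k := by
    have : 0 < k := by omega
    exact_mod_cast this
  have hn0 : (0 : ℝ) < n := by
    have : 0 < n := by omega
    exact_mod_cast this
  have h1 := card_sq_le X k
  have h2 := (card_pairs_le X (by omega : 2 ≤ k)).trans (sum_rich_le X hk)
  have h3 : (n : ℝ) ^ k / (k : ℝ) ^ (2 * k) ≤ ((X.powersetCard k).card : ℝ) := by
    rw [Finset.card_powersetCard]
    exact choose_ge (by omega) hn
  have h4 : ((n : ℝ) ^ k / (k : ℝ) ^ (2 * k)) ^ 2 ≤
      classCount k X * (324 * k * (n : ℝ) ^ (k + 1)) := by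
    calc _ ≤ ((X.powersetCard k).card : ℝ) ^ 2 := pow_le_pow_left₀ (by positivity) h3 2
      _ ≤ _ := h1
      _ ≤ _ := mul_le_mul_of_nonneg_left h2 (Nat.cast_nonneg _)
  rw [div_pow, div_le_iff₀ (by positivity)] at h4
  have e1 : ((n : ℝ) ^ k) ^ 2 = (n : ℝ) ^ (k - 1) * (n : ℝ) ^ (k + 1) := by
    rw [← pow_mul, ← pow_add]
    congr 1
    omega
  have e2 : (classCount k X : ℝ) * (324 * k * (n : ℝ) ^ (k + 1)) * ((k : ℝ) ^ (2 * k)) ^ 2 =
      (324 * (k : ℝ) ^ (4 * k + 1) * classCount k X) * (n : ℝ) ^ (k + 1) := by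
    have : ((k : ℝ) ^ (2 * k)) ^ 2 = (k : ℝ) ^ (4 * k) := by
      rw [← pow_mul]
      congr 1
      omega
    rw [this, pow_succ]
    ring
  rw [e1, e2] at h4
  exact le_of_mul_le_mul_right h4 (pow_pos hn0 _)

lemma classCount_finite (k : ℕ) (X : Finset ℝ) :
    {C : Quotient homSetoid | ∃ A ∈ X.powersetCard k, Quotient.mk homSetoid A = C}.Finite :=
  (X.powersetCard k).finite_toSet.image (Quotient.mk homSetoid)

/-- The progression `{0, ..., n - 1}`. -/
noncomputable def AP (n : ℕ) : Finset ℝ := (Finset.range n).image (fun i : ℕ => (i : ℝ))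

lemma card_AP (n : ℕ) : (AP n).card = n := by
  rw [AP, Finset.card_image_of_injective _ Nat.cast_injective, Finset.card_range]

/-- The upper bound. -/
lemma upper_bound (k n : ℕ) (hk : 1 ≤ k) : classCount k (AP n) ≤ n ^ (k - 1) := by
  classical
  have hsub : {C : Quotient homSetoid | ∃ A ∈ (AP n).powersetCard k, Quotient.mk homSetoid A = C}
      ⊆ ((((AP n).powersetCard k).filter (fun A => (0 : ℝ) ∈ A)).image
        (Quotient.mk homSetoid) : Finset (Quotient homSetoid)) := by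
    rintro C ⟨A, hA, rfl⟩
    rw [Finset.mem_powersetCard] at hA
    have hne : A.Nonempty := by
      rw [← Finset.card_pos]
      omega
    set a := A.min' hne with ha
    have haA : a ∈ A := A.min'_mem hne
    have haAP := hA.1 haA
    rw [AP, Finset.mem_image] at haAP
    obtain ⟨i, hi, hia⟩ := haAP
    rw [Finset.mem_coe, Finset.mem_image]
    refine ⟨A.image (fun x => x - a), ?_, ?_⟩
    · rw [Finset.mem_filter, Finset.mem_powersetCard]
      refine ⟨⟨?_, ?_⟩, ?_⟩
      · intro y hy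
        obtain ⟨x, hx, rfl⟩ := Finset.mem_image.1 hy
        have hxAP := hA.1 hx
        rw [AP, Finset.mem_image] at hxAP
        obtain ⟨l, hl, rfl⟩ := hxAP
        have hle : a ≤ (l : ℝ) := A.min'_le _ hx
        rw [← hia] at hle ⊢
        have hle' : i ≤ l := by exact_mod_cast hle
        rw [AP, Finset.mem_image]
        refine ⟨l - i, ?_, ?_⟩
        · rw [Finset.mem_range] at *
          omega
        · rw [Nat.cast_sub hle']
      · rw [Finset.card_image_of_injective _ (sub_left_injective), hA.2]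
      · rw [Finset.mem_image]
        exact ⟨a, haA, sub_self a⟩
    · apply Quotient.sound (s := homSetoid)
      refine ⟨1, a, one_pos, ?_⟩
      rw [Finset.coe_image, Set.image_image]
      have : (fun x : ℝ => 1 * (x - a) + a) = id := by
        funext x
        simp
      rw [this, Set.image_id]
  have h1 : classCount k (AP n) ≤
      ((((AP n).powersetCard k).filter (fun A => (0 : ℝ) ∈ A)).image
        (Quotient.mk homSetoid)).card := by
    rw [classCount, ← Set.ncard_coe_finset]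
    exact Set.ncard_le_ncard hsub (Finset.finite_toSet _)
  have h2 : (((AP n).powersetCard k).filter (fun A => (0 : ℝ) ∈ A)).card ≤
      ((AP n).powersetCard (k - 1)).card := by
    apply Finset.card_le_card_of_injOn (fun A => A.erase 0)
    · intro A hA
      simp only [Finset.coe_filter, Finset.mem_powersetCard, Set.mem_setOf_eq] at hA
      rw [Finset.mem_coe, Finset.mem_powersetCard]
      refine ⟨(Finset.erase_subset _ _).trans hA.1.1, ?_⟩
      rw [Finset.card_erase_of_mem hA.2, hA.1.2]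
    · intro A hA B hB hAB
      simp only [Finset.coe_filter, Finset.mem_powersetCard, Set.mem_setOf_eq] at hA hB
      rw [← Finset.insert_erase hA.2, ← Finset.insert_erase hB.2]
      exact congrArg _ hAB
  calc classCount k (AP n) ≤ _ := h1
    _ ≤ _ := Finset.card_image_le
    _ ≤ _ := h2
    _ = n.choose (k - 1) := by rw [Finset.card_powersetCard, card_AP]
    _ ≤ n ^ (k - 1) := Nat.choose_le_pow _ _

lemma rich_le_all (X : Finset ℝ) {j : ℕ} (hj : 1 ≤ j) :
    (((H X).filter (fun h => j ≤ (Y X h).card)).card : ℝ) * (j : ℝ) ^ 3 ≤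
      324 * (X.card : ℝ) ^ 4 := by
  rcases Nat.lt_or_ge j 2 with h | h
  · have hj1 : j = 1 := by omega
    subst hj1
    have e : (H X).filter (fun h => 1 ≤ (Y X h).card) =
        (H X).filter (fun h => 2 ≤ (Y X h).card) := by
      apply Finset.filter_congr
      intro h hh
      have := two_le_of_mem_H hh
      constructor <;> intro _ <;> omega
    rw [e]
    have := card_rich_le X (j := 2) le_rfl
    have h0 : (0 : ℝ) ≤ (((H X).filter (fun h => 2 ≤ (Y X h).card)).card : ℝ) :=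
      Nat.cast_nonneg _
    push_cast at this ⊢
    nlinarith
  · exact card_rich_le X h

lemma sum_inv_le (n : ℕ) (hn : 1 ≤ n) :
    ∑ j ∈ Finset.Icc 1 n, ((j : ℝ))⁻¹ ≤ 1 + Real.log n := by
  have h := harmonic_le_one_add_log n
  rw [harmonic_eq_sum_Icc] at h
  push_cast at h
  exact h

lemma sum_rich_three (X : Finset ℝ) (hX : 1 ≤ X.card) :
    ∑ h ∈ H X, ((Y X h).card : ℝ) ^ 3 ≤
      972 * (X.card : ℝ) ^ 4 * (1 + Real.log X.card) := by
  classical
  set n := X.card with hn
  have hY : ∀ h, (Y X h).card ≤ n := fun h => Finset.card_le_card (Finset.filter_subset _ _)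
  have h1 : ∀ h ∈ H X, ((Y X h).card : ℝ) ^ 3 ≤
      ∑ j ∈ Finset.Icc 1 n, if j ≤ (Y X h).card then ((3 : ℕ) : ℝ) * (j : ℝ) ^ (3 - 1) else 0 := by
    intro h _
    refine (pow_le_sum 3 _ (by omega)).trans (le_of_eq ?_)
    rw [← Finset.sum_filter]
    apply Finset.sum_congr _ (fun _ _ => rfl)
    ext j
    simp only [Finset.mem_Icc, Finset.mem_filter]
    have := hY h
    omega
  calc ∑ h ∈ H X, ((Y X h).card : ℝ) ^ 3
      ≤ ∑ h ∈ H X, ∑ j ∈ Finset.Icc 1 n,
          (if j ≤ (Y X h).card then ((3 : ℕ) : ℝ) * (j : ℝ) ^ (3 - 1) else 0) :=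
        Finset.sum_le_sum h1
    _ = ∑ j ∈ Finset.Icc 1 n, ∑ h ∈ H X,
          (if j ≤ (Y X h).card then ((3 : ℕ) : ℝ) * (j : ℝ) ^ (3 - 1) else 0) := Finset.sum_comm
    _ = ∑ j ∈ Finset.Icc 1 n,
          (((H X).filter (fun h => j ≤ (Y X h).card)).card : ℝ) *
            (((3 : ℕ) : ℝ) * (j : ℝ) ^ (3 - 1)) := by
        apply Finset.sum_congr rfl
        intro j _
        rw [← Finset.sum_filter, Finset.sum_const, nsmul_eq_mul]
    _ ≤ ∑ j ∈ Finset.Icc 1 n, 972 * (n : ℝ) ^ 4 * ((j : ℝ))⁻¹ := by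
        apply Finset.sum_le_sum
        intro j hj
        have hj' := (Finset.mem_Icc.1 hj).1
        have hj0 : (0 : ℝ) < j := by exact_mod_cast hj'
        have h3 := rich_le_all X hj'
        have e : (((H X).filter (fun h => j ≤ (Y X h).card)).card : ℝ) *
            (((3 : ℕ) : ℝ) * (j : ℝ) ^ (3 - 1)) =
            3 * ((((H X).filter (fun h => j ≤ (Y X h).card)).card : ℝ) * (j : ℝ) ^ 3) *
              ((j : ℝ))⁻¹ := by
          push_cast
          norm_num
          field_simp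
        rw [e]
        apply mul_le_mul_of_nonneg_right _ (by positivity)
        rw [← hn] at h3
        linarith
    _ = 972 * (n : ℝ) ^ 4 * ∑ j ∈ Finset.Icc 1 n, ((j : ℝ))⁻¹ := by rw [Finset.mul_sum]
    _ ≤ _ := by
        apply mul_le_mul_of_nonneg_left (sum_inv_le n hX) (by positivity)

lemma lower_bound_three (X : Finset ℝ) (hn : 3 ≤ X.card) :
    (X.card : ℝ) ^ 2 ≤
      (972 * 3 ^ 12) * (classCount 3 X * (1 + Real.log X.card)) := by
  classical
  set n := X.card with hnn
  have hn0 : (0 : ℝ) < n := by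
    have : 0 < n := by omega
    exact_mod_cast this
  have h1 := card_sq_le X 3
  have h2 := (card_pairs_le X (by omega : 2 ≤ 3)).trans (sum_rich_three X (by omega))
  have h3 : (n : ℝ) ^ 3 / ((3 : ℕ) : ℝ) ^ (2 * 3) ≤ ((X.powersetCard 3).card : ℝ) := by
    rw [Finset.card_powersetCard]
    exact choose_ge (by omega) hn
  have h4 : ((n : ℝ) ^ 3 / ((3 : ℕ) : ℝ) ^ (2 * 3)) ^ 2 ≤
      classCount 3 X * (972 * (n : ℝ) ^ 4 * (1 + Real.log n)) := by
    calc _ ≤ ((X.powersetCard 3).card : ℝ) ^ 2 := pow_le_pow_left₀ (by positivity) h3 2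
      _ ≤ _ := h1
      _ ≤ _ := mul_le_mul_of_nonneg_left h2 (Nat.cast_nonneg _)
  rw [div_pow, div_le_iff₀ (by positivity)] at h4
  have e1 : ((n : ℝ) ^ 3) ^ 2 = (n : ℝ) ^ 2 * (n : ℝ) ^ 4 := by ring
  have e2 : (classCount 3 X : ℝ) * (972 * (n : ℝ) ^ 4 * (1 + Real.log n)) *
      ((((3 : ℕ) : ℝ)) ^ (2 * 3)) ^ 2 =
      ((972 * 3 ^ 12) * (classCount 3 X * (1 + Real.log n))) * (n : ℝ) ^ 4 := by
    push_cast
    ring
  rw [e1, e2] at h4
  exact le_of_mul_le_mul_right h4 (pow_pos hn0 _)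

lemma f_le (k n : ℕ) (hk : 1 ≤ k) : f k n ≤ n ^ (k - 1) := by
  have h0 : classCount k (AP n) ∈ {c | ∃ X : Finset ℝ, X.card = n ∧ classCount k X = c} :=
    ⟨AP n, card_AP n, rfl⟩
  exact (Nat.sInf_le h0).trans (upper_bound k n hk)

lemma f_attained (k n : ℕ) : ∃ X : Finset ℝ, X.card = n ∧ classCount k X = f k n := by
  have hne : {c | ∃ X : Finset ℝ, X.card = n ∧ classCount k X = c}.Nonempty :=
    ⟨_, AP n, card_AP n, rfl⟩
  exact Nat.sInf_mem hne

/-- For every fixed `k ≥ 4` the minimum number of homothety classes of `k`-subsets of `n` reals has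
order of magnitude exactly `n ^ (k - 1)`; for `k = 3` it lies between constant multiples of
`n ^ 2 / log n` and `n ^ 2`. -/
theorem result :
    (∀ k : ℕ, 4 ≤ k →
      (fun n : ℕ => (f k n : ℝ)) =Θ[Filter.atTop] (fun n : ℕ => (n : ℝ) ^ (k - 1))) ∧
    ((fun n : ℕ => (n : ℝ) ^ 2 / Real.log n) =O[Filter.atTop] (fun n : ℕ => (f 3 n : ℝ))) ∧
    ((fun n : ℕ => (f 3 n : ℝ)) =O[Filter.atTop] (fun n : ℕ => (n : ℝ) ^ 2)) := by
  refine ⟨fun k hk => ⟨?_, ?_⟩, ?_, ?_⟩
  · apply Asymptotics.IsBigO.of_bound 1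
    filter_upwards with n
    have h1 : f k n ≤ n ^ (k - 1) := f_le k n (by omega)
    rw [Real.norm_of_nonneg (Nat.cast_nonneg _), Real.norm_of_nonneg (by positivity), one_mul]
    exact_mod_cast h1
  · apply Asymptotics.IsBigO.of_bound (324 * (k : ℝ) ^ (4 * k + 1))
    filter_upwards [Filter.eventually_ge_atTop k] with n hn
    obtain ⟨X, hX, hc⟩ := f_attained k n
    rw [Real.norm_of_nonneg (by positivity), Real.norm_of_nonneg (Nat.cast_nonneg _)]
    have h1 := lower_bound X hk (by omega)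
    rw [hX] at h1
    rw [← hc]
    exact h1
  · apply Asymptotics.IsBigO.of_bound (2 * (972 * 3 ^ 12))
    filter_upwards [Filter.eventually_ge_atTop 3] with n hn
    obtain ⟨X, hX, hc⟩ := f_attained 3 n
    have hn3 : (3 : ℝ) ≤ n := by exact_mod_cast hn
    have hlog : 1 ≤ Real.log n := by
      rw [← Real.log_exp 1]
      apply Real.log_le_log (Real.exp_pos 1)
      have := Real.exp_one_lt_d9
      linarith
    rw [Real.norm_of_nonneg (by positivity), Real.norm_of_nonneg (Nat.cast_nonneg _)]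
    have h1 := lower_bound_three X (by omega)
    rw [hX, hc] at h1
    rw [div_le_iff₀ (by linarith)]
    have h2 : (f 3 n : ℝ) * (1 + Real.log n) ≤ (f 3 n : ℝ) * (2 * Real.log n) :=
      mul_le_mul_of_nonneg_left (by linarith) (Nat.cast_nonneg _)
    calc (n : ℝ) ^ 2 ≤ _ := h1
      _ ≤ (972 * 3 ^ 12) * ((f 3 n : ℝ) * (2 * Real.log n)) :=
          mul_le_mul_of_nonneg_left h2 (by positivity)
      _ = _ := by ring
  · apply Asymptotics.IsBigO.of_bound 1
    filter_upwards with n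
    have h1 : f 3 n ≤ n ^ (3 - 1) := f_le 3 n (by omega)
    rw [Real.norm_of_nonneg (Nat.cast_nonneg _), Real.norm_of_nonneg (by positivity), one_mul]
    exact_mod_cast h1

end Pool.Agent.Results.MP_9322ca_co.OrderOfMagnitude
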