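import Pool.Agent.Results.MP_9322ca_co.OrderFourUp

open Finset

namespace Pool.Agent.Results.MP_9322ca_co.ThreeUpToLog

open Pool.Agent.Results.MP_9322ca_co.OrderFourUp (f f_lower f_le W W_two_le)

/-- `f_3(n)` is `n^2` up to a factor `log n`. -/
theorem result :
    ∃ c : ℝ, 0 < c ∧ ∀ n : ℕ, 3 ≤ n →
      c * ((n : ℝ) ^ 2 / Real.log n) ≤ (f 3 n : ℝ) ∧ (f 3 n : ℝ) ≤ (n : ℝ) ^ 2 := by
  set K : ℝ := (((2 + 1 : ℕ) : ℝ) ^ (2 + 1) * ((2 + 1).factorial : ℝ)) ^ 2 *
    2 ^ (2 * 2 + 1) with hK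
  have hKpos : 0 < K := by
    have : (0 : ℝ) < ((2 + 1).factorial : ℝ) := by exact_mod_cast Nat.factorial_pos _
    positivity
  refine ⟨(2 * K)⁻¹, by positivity, fun n hn => ⟨?_, ?_⟩⟩
  · have h1 := f_lower (p := 2) (n := n) (by norm_num) hn
    rw [← hK] at h1
    have h2 := W_two_le n
    have h3 : (0 : ℝ) ≤ f (2 + 1) n := by positivity
    have hlog : 1 ≤ Real.log n := by
      have h3n : (3 : ℝ) ≤ n := by exact_mod_cast hn
      have : Real.exp 1 ≤ n := (Real.exp_one_lt_d9.le.trans (by norm_num)).trans h3n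
      calc (1 : ℝ) = Real.log (Real.exp 1) := (Real.log_exp 1).symm
        _ ≤ Real.log n := Real.log_le_log (Real.exp_pos 1) this
    have h4 : (n : ℝ) ^ 2 ≤ 2 * K * Real.log n * f (2 + 1) n := by
      have h5 : K * W 2 n * f (2 + 1) n ≤ K * (2 * Real.log n) * f (2 + 1) n := by
        apply mul_le_mul_of_nonneg_right _ h3
        apply mul_le_mul_of_nonneg_left _ hKpos.le
        linarith
      linarith
    have hlogpos : 0 < Real.log n := by linarith
    rw [inv_mul_le_iff₀ (by positivity), div_le_iff₀ hlogpos]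
    calc (n : ℝ) ^ 2 ≤ 2 * K * Real.log n * f (2 + 1) n := h4
      _ = 2 * K * f 3 n * Real.log n := by ring
  · have := f_le (k := 3) (by norm_num) n
    exact_mod_cast this

end Pool.Agent.Results.MP_9322ca_co.ThreeUpToLog
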